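import Pool.Agent.N527.CF.Tw
import Pool.Agent.N53.CF.All
import Pool.Agent.N676.OR.Cnt
import Pool.Agent.N676.OR.ZC
import Pool.Agent.Results.MP_f80667_ag.DegreeZeroComplexOfTwists

/-!
# Zero-cycles of degree zero on twists of cyclic coverings, for twists by the convergents of a continued
fraction normal number

Let `b y ^ 2 = ∏ k, G k (z, w)` be a hyperelliptic curve `D` over `ℚ`, where the `G k` are the
homogenisations of polynomials `g k` with integral coefficients, of even degrees, pairwise coprime.
Let `h` be a nonconstant polynomial with integral coefficients, coprime to the `g k`, and `H` its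
homogenisation. For an integer `a` and an even `m ∣ deg h` consider the curve

  `C a : b y ^ 2 = ∏ k, G k (z, w)`, `a x ^ m = H (z, w)`,

a cyclic covering of `D`; for different `a` these coverings are twists of each other, for example the
curves `b y ^ 2 = ∏ g k (a x ^ m)`. The genus is arbitrary, and nothing is known about the
Tate-Shafarevich groups of the Jacobians. The starting result
`DegreeZeroComplexOfTwists` (whose definitions are used) is about 100% of the squarefree integers
`|a| ≤ X`, for one family `(b, g, h)`.

The functions `G k` have even divisors on `D`, so the value `∏ N (G k (P i)) ^ c i` modulo squares of a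
zero-cycle `∑ c i P i` over a field, with points `P i` over finite extensions, depends only on the class
in `CH₀ / 2`, and the quaternion algebras `(G k, e)`, `e` a nonzero integer, belong to the Brauer group of
`C a`. An adelic zero-cycle is orthogonal if the sum of the local invariants of each of these classes is
zero. The integer `a` has the property `GoodTwist` if for all even `m ∣ deg h`, `m > 0`, and all
orthogonal adelic zero-cycles `(z_v)` of degree zero (or of even degree) on `C a`:

* (general) there are squarefree integers `n k` with `G k (z_v) = n k` in `ℚ_v* / ℚ_v*²` for all `k` and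
  all places `v`, and the family `n` is persistent: `∏ n k` is a square, and for every automorphism
  `σ` of the field of algebraic numbers there is a `σ`-stable set of zeros `β` of `h`, of even
  cardinality, with `∏ β, g k (β) = n k * y k ^ 2`, `σ (y k) = y k`;
* if the zeros of `h` are one or two rational numbers `α₁`, `α₂` (with any multiplicities) and
  `b ∏ g k (α₁)` is a square, there is a zero-cycle `z` of degree zero on `C a` over `ℚ` with
  `G k (z) = G k (z_v)` in `ℚ_v* / ℚ_v*²` for all `k` and all `v`;
* if `h` has at most two zeros `x₁`, `x₂`, rational or conjugate, and `∏ k, g k (x₁) g k (x₂)` is not a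
  square in `ℚ`, then `G k (z_v) = 1` in `ℚ_v* / ℚ_v*²` for all `k` and all `v`;
* the same holds if the zeros of `h` are square roots of `A`, `B`, `A B`, where `A`, `B`, `A B` are
  rational and not squares, and the values of the `g k` at the zeros depend only on the squares of the
  zeros.

So the complex for zero-cycles of degree zero modulo 2 is exact up to elements of the kernels of the maps
`(G k)` for these twists, without assumptions on Tate-Shafarevich groups.

**Theorem.** Let `α` be ANY continued fraction normal number in `(0, 1)`: an irrational number whose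
orbit under the Gauss map `x ↦ 1 / x - ⌊1 / x⌋` is distributed according to the Gauss measure
`dx / ((1 + x) log 2)`. Almost all numbers have this property, and there are explicit ones (Adler, Keane
and Smorodinsky). Let `p_n / q_n` be the convergents of `α`. There is ONE set `E` of indices of natural
density zero such that for ALL families `(b, g, h)` and ALL integers `u`, `v`, not both zero, the twist by
`a = u p_n + v q_n` has the property `GoodTwist` for all but finitely many `n ∉ E`.

In particular this holds for the twists by the denominators `q_n` and by the numerators `p_n` for `100%`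
of the `n`. The condition is on the number `α` alone and does not depend on the families, the set of
twists is explicit for an explicit `α` and very thin: there are only `O(log X)` such `a` with `|a| ≤ X`.
The twists `a` are not squarefree in general.

The last case occurs for `g = (z ^ 2 + 51, z ^ 2 - 1)`, `h = (z ^ 2 + 1) (z ^ 2 - 17) (z ^ 2 + 17)`,
`b = 1`, and then there are points over the real numbers and over all the `p`-adic fields on all the
curves `C a`.

Proof. A set of integral vectors is pronull if its closure in the product of the `ℤ_p ^ ι` over the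
primes `p` which do not divide `M` has Haar measure zero, for all `M`. For a class which is not
persistent there are a positive proportion of primes `p` (Chebotarev's theorem) such that no zero-cycle
on `C a` over `ℚ_p` has this class if `p` divides `a` exactly once (local analysis of helper925). The set
of the vectors `c` for which no such prime divides `u c_0 + v c_1` exactly once is pronull (helper676,
with the engine of helper24, helper300 and helper765). The convergents modulo an integer are a random walk
with stationary increments on a finite group, driven by the Gauss map, and by the ergodicity of these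
extensions and the normality of `α` they are in a pronull set only for indices of density zero (engine CF
of helper53 and its workers). There are countably many `(b, g, h)` and `(u, v)`, and a diagonal
argument gives one set `E`.
-/

set_option autoImplicit false

namespace Pool.Agent.N527.Kept.ConvergentsF80667

open Polynomial MeasureTheory Filter Topology Pool.Agent.R925.FD Pool.Agent.R925.ZC
open Pool.Agent.Results.MP_f80667_ag.DegreeZeroComplexOfTwists
  (Admissible EvenDegree OfPersistentClass TrivialValues parity_of_even trivial_of)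
open Pool.Agent.N676.OR (Hit Big)
open Pool.Agent.N53.CF (CFNormal cvg)
open Pool.Agent.W811.Stu (dig)

/-- `E` has natural density zero. -/
def DensityZero (E : Set ℕ) : Prop :=
  Tendsto (fun N : ℕ => (({x : ℕ | x < N ∧ x ∈ E}.ncard : ℕ) : ℝ) / (N : ℝ)) atTop (𝓝 0)

/-- `h` has at most two zeros, rational or conjugate, and the product of the values of the `g k` at them
is not a square in `ℚ`. -/
def TwoZeros {r : ℕ} (g : Fin r → ℤ[X]) (h : ℤ[X]) : Prop :=
  ∃ (x₁ x₂ : AlgebraicClosure ℚ) (N : Fin r → ℚ),
    (∀ β : AlgebraicClosure ℚ, aeval β h = 0 → β = x₁ ∨ β = x₂) ∧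
    (∀ k, aeval x₁ (g k) * aeval x₂ (g k) = (N k : AlgebraicClosure ℚ)) ∧
    (∀ k, N k ≠ 0) ∧ ¬ IsSquare (∏ k, N k)

/-- The zeros of `h` are square roots of `A`, `B`, `A B`, where `A`, `B`, `A B` are rational and not
squares, and the values of the `g k` at the zeros depend only on the squares of the zeros. -/
def ThreeSquares {r : ℕ} (g : Fin r → ℤ[X]) (h : ℤ[X]) : Prop :=
  ∃ (A B : ℚ) (v₁ v₂ v₃ : Fin r → ℚ), ¬ IsSquare A ∧ ¬ IsSquare B ∧ ¬ IsSquare (A * B) ∧
    (∀ β : AlgebraicClosure ℚ, aeval β h = 0 → β ^ 2 = (A : AlgebraicClosure ℚ) ∨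
      β ^ 2 = (B : AlgebraicClosure ℚ) ∨ β ^ 2 = ((A * B : ℚ) : AlgebraicClosure ℚ)) ∧
    (∀ k, v₁ k ≠ 0) ∧ (∀ k, v₂ k ≠ 0) ∧ (∀ k, v₃ k ≠ 0) ∧
    (∀ k β, β ^ 2 = (A : AlgebraicClosure ℚ) → aeval β (g k) = (v₁ k : AlgebraicClosure ℚ)) ∧
    (∀ k β, β ^ 2 = (B : AlgebraicClosure ℚ) → aeval β (g k) = (v₂ k : AlgebraicClosure ℚ)) ∧
    (∀ k β, β ^ 2 = ((A * B : ℚ) : AlgebraicClosure ℚ) →
      aeval β (g k) = (v₃ k : AlgebraicClosure ℚ))

/-- The orthogonal adelic zero-cycles of even degree on the curves `C a`, `m` even, `m ∣ deg h`, have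
the values of persistent classes, those of zero-cycles over `ℚ` of degree zero if `h` has one or two
rational zeros over which there are rational points, and trivial values in two other cases. -/
def GoodTwist {r : ℕ} (b : ℤ) (g : Fin r → ℤ[X]) (h : ℤ[X]) (a : ℤ) : Prop :=
  ∀ m : ℕ, 0 < m → Even m → m ∣ h.natDegree → ∀ Z : AdelicCycle m b a g h, EvenDegree Z →
    Z.Orthogonal → OfPersistentClass Z ∧
    (∀ α₁ α₂ : ℚ, (∀ β : AlgebraicClosure ℚ, aeval β h = 0 ↔ β = α₁ ∨ β = α₂) →
      IsSquare ((b : ℚ) * ∏ k, aeval α₁ (g k)) →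
      ∃ z : Cycle m b a g h ℚ, z.degree = 0 ∧ SameValues Z z) ∧
    (TwoZeros g h → TrivialValues Z) ∧ (ThreeSquares g h → TrivialValues Z)

lemma goodTwist_of {r : ℕ} {b : ℤ} {g : Fin r → ℤ[X]} {h : ℤ[X]} (hA : Admissible b g h) :
    ∃ PP : Set (Set ℕ), PP.Finite ∧ (∀ P ∈ PP, Big P) ∧
      ∀ a : ℤ, (∀ P ∈ PP, Hit P a) → GoodTwist b g h a := by
  classical
  obtain ⟨PP, h1, h2, h3⟩ :=
    Pool.Agent.N676.OR.zc_once hA.b_ne hA.g_ne hA.h_deg hA.deg hA.coprime hA.coprime_h
  refine ⟨PP, h1, h2, fun a ha m hm0 hm hmh Z hd hZ => ?_⟩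
  obtain ⟨n, hn1, hn2, hn3, hn4, hn5⟩ := h3 a ha m hm hmh 0 Z (parity_of_even hd) hZ
  refine ⟨⟨n, hn1, hn2, hn3, hn4, hn5⟩, fun α₁ α₂ hz hu => ?_, ?_, ?_⟩
  · obtain ⟨z, hz1, hz2⟩ := realize (m := m) (a := a) hm0 hA.b_ne hz
      (fun k => g_ne hA.h_deg hA.coprime_h ((hz α₁).2 (Or.inl rfl)) k)
      (fun k => g_ne hA.h_deg hA.coprime_h ((hz α₂).2 (Or.inr rfl)) k) (Or.inr hu) _ hn2 hn3
    exact ⟨z, hz1, fun k => same_aux (hn1 k).ne_zero (hn4 k) (hz2 k).2,
      fun k p => same_aux (hn1 k).ne_zero (hn5 k p) (hz2 k).2⟩
  · rintro ⟨x₁, x₂, N, hz, hN, hN0, hsq⟩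
    exact trivial_of hn1 hn4 hn5
      (trivial_two hA.b_ne g h x₁ x₂ hz N hN hN0 hsq Even.zero _ hn2 hn3)
  · rintro ⟨A, B, v₁, v₂, v₃, hA1, hB, hAB, hz, hv₁, hv₂, hv₃, k1, k2, k3⟩
    exact trivial_of hn1 hn4 hn5
      (trivial_three g h A B hA1 hB hAB hz v₁ v₂ v₃ hv₁ hv₂ hv₃ k1 k2 k3 Even.zero _ hn2.1 hn3)

theorem normal (hM : Pool.Agent.N53.CF.S_CF) (α : ℝ) (hα : CFNormal α) :
    ∃ E : Set ℕ, DensityZero E ∧
      ∀ (r : ℕ) (b : ℤ) (g : Fin r → ℤ[X]) (h : ℤ[X]), Admissible b g h →
        ∀ u v : ℤ, u ≠ 0 ∨ v ≠ 0 →
          {n : ℕ | n ∉ E ∧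
            ¬ GoodTwist b g h (u * cvg (dig α) n 0 + v * cvg (dig α) n 1)}.Finite := by
  classical
  have hcp := Pool.Agent.N676.OR.countable_poly
  obtain ⟨E, hE, hall⟩ := Pool.Agent.N527.CF.cf_tw hM
    (𝔇 := Σ r : ℕ, ℤ × (Fin r → ℤ[X]) × ℤ[X])
    (fun D a => Admissible D.2.1 D.2.2.1 D.2.2.2 → GoodTwist D.2.1 D.2.2.1 D.2.2.2 a) (by
      rintro ⟨r, b, g, h⟩
      by_cases hA : Admissible b g h
      · obtain ⟨PP, h1, h2, h3⟩ := goodTwist_of hA
        exact ⟨PP, h1, h2, fun a ha _ => h3 a ha⟩
      · exact ⟨∅, Set.finite_empty, fun P hP => absurd hP (Set.notMem_empty _),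
          fun a _ hA' => absurd hA' hA⟩) α hα
  refine ⟨E, hE, fun r b g h hA u v huv => ?_⟩
  have hne : (![u, v] : Fin 2 → ℤ) ≠ 0 := by
    intro h0
    rcases huv with hu | hv
    · exact hu (congrFun h0 0)
    · exact hv (congrFun h0 1)
  refine (hall ![u, v] hne ⟨r, b, g, h⟩).subset ?_
  rintro n ⟨hn, hn'⟩
  refine ⟨hn, fun hgood => hn' ?_⟩
  have h1 := hgood hA
  rw [Fin.sum_univ_two] at h1
  exact h1

lemma adm_ex : Admissible 1 exg exh :=
  ⟨one_ne_zero, exg_ne, by rw [exh_deg]; norm_num, fun k => by rw [exg_deg], exg_coprime,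
    exgh_coprime⟩

lemma three_ex : ThreeSquares exg exh := by
  have h17 : ¬ IsSquare (17 : ℚ) := by
    rw [show (17 : ℚ) = ((17 : ℕ) : ℚ) from rfl, Rat.isSquare_natCast_iff]
    exact (by norm_num : Nat.Prime 17).prime.not_isSquare
  have h1 : ∀ β : AlgebraicClosure ℚ, aeval β (exg 1) = β ^ 2 - 1 := by
    intro β
    change aeval β (X ^ 2 - 1 : ℤ[X]) = _
    simp
  refine ⟨-1, 17, ![50, -2], ![68, 16], ![34, -18], nonsq_of_neg (by norm_num), h17,
    nonsq_of_neg (by norm_num), ?_, ?_, ?_, ?_, ?_, ?_, ?_⟩
  · intro β hβ
    rcases aeval_exh β hβ with h | h | h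
    · left; rw [h]; push_cast; rfl
    · right; left; rw [h]; push_cast; rfl
    · right; right; rw [h]; push_cast; norm_num
  · intro k; fin_cases k <;> norm_num
  · intro k; fin_cases k <;> norm_num
  · intro k; fin_cases k <;> norm_num
  · intro k β hβ
    fin_cases k
    · change aeval β (exg 0) = ((50 : ℚ) : AlgebraicClosure ℚ)
      rw [aeval_exg0, hβ]; push_cast; norm_num
    · change aeval β (exg 1) = ((-2 : ℚ) : AlgebraicClosure ℚ)
      rw [h1, hβ]; push_cast; norm_num
  · intro k β hβ
    fin_cases k
    · change aeval β (exg 0) = ((68 : ℚ) : AlgebraicClosure ℚ)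
      rw [aeval_exg0, hβ]; push_cast; norm_num
    · change aeval β (exg 1) = ((16 : ℚ) : AlgebraicClosure ℚ)
      rw [h1, hβ]; push_cast; norm_num
  · intro k β hβ
    fin_cases k
    · change aeval β (exg 0) = ((34 : ℚ) : AlgebraicClosure ℚ)
      rw [aeval_exg0, hβ]; push_cast; norm_num
    · change aeval β (exg 1) = ((-18 : ℚ) : AlgebraicClosure ℚ)
      rw [h1, hβ]; push_cast; norm_num

theorem result :
    (∀ α : ℝ, CFNormal α → ∃ E : Set ℕ, DensityZero E ∧
      ∀ (r : ℕ) (b : ℤ) (g : Fin r → ℤ[X]) (h : ℤ[X]), Admissible b g h →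
        ∀ u v : ℤ, u ≠ 0 ∨ v ≠ 0 →
          {n : ℕ | n ∉ E ∧
            ¬ GoodTwist b g h (u * cvg (dig α) n 0 + v * cvg (dig α) n 1)}.Finite) ∧
    (∀ᵐ α ∂(volume.restrict (Set.Ioo (0 : ℝ) 1)), CFNormal α) ∧
    Admissible 1 exg exh ∧ ThreeSquares exg exh ∧
    ∀ (m : ℕ) (a : ℤ), m ≠ 0 → Nonempty (Point m 1 a exg exh ℝ) ∧
      ∀ (p : ℕ) [Fact p.Prime], Nonempty (Point m 1 a exg exh ℚ_[p]) :=
  ⟨normal Pool.Agent.N53.CF.main, Pool.Agent.N53.CF.t_TYP, adm_ex, three_ex,
    Pool.Agent.Results.MP_f80667_ag.DegreeZeroComplexOfTwists.result.2.2⟩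

end Pool.Agent.N527.Kept.ConvergentsF80667

/-
Kept (exchange on a full page, 26 November 21:15): formerly Results/MP_f80667_ag/ConvergentsOfNormalNumbers.lean of helper527.
Its claim file:

Proves: For b<>0, g_1..g_r, h in Z[z], <>0, deg h>=1, deg g_k even, g_k pairwise coprime and coprime to h, let C_a: b y^2=prod G_k(z,w), a x^m=H(z,w), m>0 even, m|deg h (homogenisations G_k, H). Let al be ANY continued fraction normal number: irrational, 0<al<1, and for 0<=t<=1 the proportion of n<N with gauss^n(al)<t tends to log_2(1+t). Let p_n/q_n be its convergents. There is ONE set E of indices of density 0 such that for ALL (b,g,h), ALL integers (u,v)<>(0,0), all but finitely many n outside E, a=u p_n+v q_n, all m: each adelic zero-cycle Z on C_a of even degrees orthogonal to all (G_k,e), e<>0, has the values of a persistent class; if h has one or two zeros, rational, and b prod g_k(zero) is a square, those of a zero-cycle over Q of degree 0; if TwoZeros or ThreeSquares, its values are squares. Almost all al in (0,1) are normal.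
Definitions: gauss x=frac(1/x). Values: G_k(Z) mod squares at all places; persistent class, TwoZeros (h has zeros x1, x2 only, the N_k=g_k(x1)g_k(x2) are rational, prod N_k is not a square), ThreeSquares (an example, with adelic points for all a, is included): conditions on g at the zeros of h, as in DegreeZeroComplexOfTwists.
Relation: Partial on Q1. Starting DegreeZeroComplexOfTwists (helper925): almost all squarefree |a|<=X, one family; MetricSequences (helper18): almost all multipliers. New: thin explicit sequences, every normal al, one E. Engine: helpers 53,51,279,588,614,645,951; 24,300,676,765.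

-/
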